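import Pool.Agent.H10.FEW.Stmts
import Pool.Agent.H51.Rho.M

/-! Module SMP of project FEW (helper19): the smooth part of `l - 1`, on average. -/

set_option autoImplicit false

namespace Pool.FEW

open Finset Pool.Agent.H98.ABCR Pool.SHA

/-- number of primes `l` in `[2, N]` with `q` dividing `l - 1` -/
private def smp_c (N q : ℕ) : ℕ := ((Icc 2 N).filter (fun l : ℕ => l.Prime ∧ q ∣ l - 1)).card

private theorem smp_triv (N q : ℕ) : smp_c N q ≤ N / q := by
  unfold smp_c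
  have h : ((Icc 2 N).filter (fun l : ℕ => l.Prime ∧ q ∣ l - 1)).card ≤
      ((Ioc 0 N).filter (fun m : ℕ => q ∣ m)).card := by
    refine card_le_card_of_injOn (fun l => l - 1) ?_ ?_
    · intro l hl
      simp only [coe_filter, Set.mem_ofPred_eq, mem_Icc, mem_Ioc] at hl ⊢
      exact ⟨⟨by omega, by omega⟩, hl.2.2⟩
    · intro l hl m hm h
      simp only [coe_filter, Set.mem_ofPred_eq, mem_Icc] at hl hm h
      omega
  refine h.trans ?_
  rw [Nat.Ioc_filter_dvd_card_eq_div]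

private theorem smp_log {k0 N l : ℕ} (hl : l.Prime) (hN : l ≤ N) :
    Real.log (smp k0 (l - 1)) ≤ ∑ p ∈ Pool.Agent.H85.Rho.pr 0 k0,
      Real.log p * ∑ i ∈ Icc 1 (Nat.log 2 N), (if p ^ i ∣ l - 1 then (1 : ℝ) else 0) := by
  have h2 := hl.two_le
  have e1 : Real.log (smp k0 (l - 1)) = ∑ p ∈ (l - 1).primeFactors.filter (fun p => p < k0),
      ((l - 1).factorization p : ℝ) * Real.log p := by
    unfold smp
    rw [Nat.cast_prod, Real.log_prod]
    · refine sum_congr rfl fun p _ => ?_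
      rw [Nat.cast_pow, Real.log_pow]
    · intro p hp
      have hp' := Nat.prime_of_mem_primeFactors (mem_filter.1 hp).1
      have := hp'.pos
      positivity
  rw [e1]
  have h3 : ∑ p ∈ (l - 1).primeFactors.filter (fun p => p < k0),
      ((l - 1).factorization p : ℝ) * Real.log p ≤
      ∑ p ∈ (l - 1).primeFactors.filter (fun p => p < k0),
        Real.log p * ∑ i ∈ Icc 1 (Nat.log 2 N), (if p ^ i ∣ l - 1 then (1 : ℝ) else 0) := by
    refine sum_le_sum fun p hp => ?_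
    have hp' := Nat.prime_of_mem_primeFactors (mem_filter.1 hp).1
    have hlog : 0 ≤ Real.log p := Real.log_nonneg (by exact_mod_cast hp'.one_lt.le)
    rw [mul_comm]
    refine mul_le_mul_of_nonneg_left ?_ hlog
    rw [← sum_filter, sum_const, nsmul_eq_mul, mul_one, Nat.cast_le,
      Nat.factorization_eq_card_pow_dvd _ hp']
    refine card_le_card fun i hi => ?_
    rw [mem_filter, mem_Ico] at hi
    rw [mem_filter, mem_Icc]
    refine ⟨⟨hi.1.1, ?_⟩, hi.2⟩
    have h4 : p ^ i ≤ l - 1 := Nat.le_of_dvd (by omega) hi.2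
    have h5 : 2 ^ i ≤ p ^ i := Nat.pow_le_pow_left hp'.two_le i
    exact Nat.le_log_of_pow_le (by norm_num) (by omega)
  refine h3.trans (sum_le_sum_of_subset_of_nonneg ?_ ?_)
  · intro p hp
    rw [mem_filter] at hp
    have hp' := Nat.prime_of_mem_primeFactors hp.1
    rw [Pool.Agent.H85.Rho.mem_pr]
    exact ⟨⟨hp'.pos, hp.2.le⟩, hp'⟩
  · intro p hp _
    rw [Pool.Agent.H85.Rho.mem_pr] at hp
    have hlog : 0 ≤ Real.log p := Real.log_nonneg (by exact_mod_cast hp.2.one_lt.le)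
    refine mul_nonneg hlog (sum_nonneg fun i _ => ?_)
    split_ifs <;> norm_num

private theorem smp_swap (N k0 : ℕ) :
    ∑ l ∈ (Icc 2 N).filter Nat.Prime, Real.log (smp k0 (l - 1)) ≤
      ∑ p ∈ Pool.Agent.H85.Rho.pr 0 k0,
        Real.log p * ∑ i ∈ Icc 1 (Nat.log 2 N), (smp_c N (p ^ i) : ℝ) := by
  calc ∑ l ∈ (Icc 2 N).filter Nat.Prime, Real.log (smp k0 (l - 1))
      ≤ ∑ l ∈ (Icc 2 N).filter Nat.Prime, ∑ p ∈ Pool.Agent.H85.Rho.pr 0 k0,
        Real.log p * ∑ i ∈ Icc 1 (Nat.log 2 N), (if p ^ i ∣ l - 1 then (1 : ℝ) else 0) := by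
        refine sum_le_sum fun l hl => ?_
        rw [mem_filter, mem_Icc] at hl
        exact smp_log hl.2 hl.1.2
    _ = _ := by
        rw [sum_comm]
        refine sum_congr rfl fun p _ => ?_
        rw [← mul_sum, sum_comm]
        congr 1
        refine sum_congr rfl fun i _ => ?_
        rw [← sum_filter, sum_const, nsmul_eq_mul, mul_one, filter_filter]
        rfl

private theorem smp_geo {p : ℕ} (hp : p.Prime) (A : ℕ) :
    ∑ i ∈ Icc 1 A, 1 / ((p ^ i).totient : ℝ) ≤ 4 / p - 4 / (p : ℝ) ^ (A + 1) := by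
  have hp2 : (2 : ℝ) ≤ p := by exact_mod_cast hp.two_le
  induction A with
  | zero => simp
  | succ A ih =>
    rw [sum_Icc_succ_top (by omega)]
    have h1 : ((p ^ (A + 1)).totient : ℝ) = (p : ℝ) ^ A * (p - 1) := by
      rw [Nat.totient_prime_pow_succ hp]
      push_cast [Nat.cast_sub hp.one_lt.le]
      ring
    rw [h1]
    have hpos : (0 : ℝ) < (p : ℝ) ^ A := by positivity
    have h2 : 1 / ((p : ℝ) ^ A * (p - 1)) ≤ 4 / (p : ℝ) ^ (A + 1) - 4 / (p : ℝ) ^ (A + 1 + 1) := by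
      rw [show 4 / (p : ℝ) ^ (A + 1) - 4 / (p : ℝ) ^ (A + 1 + 1) =
        4 * (p - 1) / ((p : ℝ) ^ A * (p : ℝ) ^ 2) by
          rw [pow_succ, pow_succ]; field_simp; ring]
      rw [div_le_div_iff₀ (by apply mul_pos hpos; linarith) (by positivity)]
      have : (p : ℝ) ^ 2 ≤ 4 * (p - 1) * (p - 1) := by nlinarith
      nlinarith
    linarith

theorem smp_thm (h1 : S_BTQ) : S_SMP := by
  obtain ⟨C, hC, hB⟩ := h1
  refine ⟨12 * C + 1, 2 ^ 35, by linarith, fun x k0 hx hk hkx => ?_⟩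
  have hx1 : (1 : ℝ) ≤ x := le_trans (by norm_num) hx
  have hx0 : (0 : ℝ) < x := by linarith
  have hx2 : (2 : ℝ) ≤ x := le_trans (by norm_num) hx
  set N := ⌊x⌋₊ with hN
  have hNx : (N : ℝ) ≤ x := Nat.floor_le hx0.le
  have hN1 : 1 ≤ N := Nat.le_floor (by exact_mod_cast hx1)
  have hlx : 1 ≤ Real.log x := by
    rw [Real.le_log_iff_exp_le hx0]
    have := Real.exp_one_lt_d9
    linarith [le_trans (by norm_num : (3 : ℝ) ≤ 2 ^ 35) hx]
  have hlx0 : 0 < Real.log x := by linarith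
  have hk0 : (3 : ℝ) ≤ k0 := by exact_mod_cast hk
  have hlk : 0 < Real.log k0 := Real.log_pos (by linarith)
  -- the count for one modulus
  have hc : ∀ q : ℕ, 1 ≤ q → (smp_c N q : ℝ) ≤
      C * x / Real.log x * (1 / (q.totient : ℝ)) + x ^ (1 / 2 : ℝ) := by
    intro q hq
    have hq0 : (0 : ℝ) < q := by exact_mod_cast hq
    have hphi : (0 : ℝ) < (q.totient : ℝ) := by exact_mod_cast Nat.totient_pos.2 hq
    rcases le_or_gt ((q : ℝ) ^ 2) x with h | h
    · have h2 := hB x q hx2 hq h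
      have h3 : C * x / (q.totient * Real.log x) = C * x / Real.log x * (1 / (q.totient : ℝ)) := by
        field_simp
      rw [h3] at h2
      have h4 : (0 : ℝ) ≤ x ^ (1 / 2 : ℝ) := by positivity
      exact le_trans h2 (by linarith)
    · have h2 : (smp_c N q : ℝ) ≤ x / q := by
        calc (smp_c N q : ℝ) ≤ ((N / q : ℕ) : ℝ) := by exact_mod_cast smp_triv N q
          _ ≤ (N : ℝ) / q := Nat.cast_div_le
          _ ≤ x / q := by gcongr
      have h3 : x ^ (1 / 2 : ℝ) ≤ q := by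
        rw [← Real.sqrt_eq_rpow, Real.sqrt_le_left hq0.le]
        exact h.le
      have h4 : x / q ≤ x ^ (1 / 2 : ℝ) := by
        rw [div_le_iff₀ hq0]
        calc x = x ^ (1 / 2 : ℝ) * x ^ (1 / 2 : ℝ) := by
              rw [← Real.rpow_add hx0]; norm_num
          _ ≤ x ^ (1 / 2 : ℝ) * q := mul_le_mul_of_nonneg_left h3 (by positivity)
      have h5 : 0 ≤ C * x / Real.log x * (1 / (q.totient : ℝ)) := by positivity
      linarith
  have hA : (Nat.log 2 N : ℝ) ≤ 2 * Real.log x := by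
    have h2 : 2 ^ Nat.log 2 N ≤ N := Nat.pow_log_le_self 2 (by omega)
    have h3 : ((2 : ℝ) ^ Nat.log 2 N) ≤ x := le_trans (by exact_mod_cast h2) hNx
    have h4 := Real.log_le_log (by positivity) h3
    rw [Real.log_pow] at h4
    have h5 := Real.log_two_gt_d9
    have h6 : (0 : ℝ) ≤ Nat.log 2 N := by positivity
    nlinarith
  have hsub : ∀ p ∈ Pool.Agent.H85.Rho.pr 0 k0, p.Prime ∧ p ≤ k0 := by
    intro p hp
    rw [Pool.Agent.H85.Rho.mem_pr] at hp
    exact ⟨hp.2, hp.1.2⟩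
  have h10 : ∀ p ∈ Pool.Agent.H85.Rho.pr 0 k0,
      Real.log p * ∑ i ∈ Icc 1 (Nat.log 2 N), (smp_c N (p ^ i) : ℝ) ≤
      4 * C * x / Real.log x * (Real.log p / p) +
        2 * Real.log x * x ^ (1 / 2 : ℝ) * Real.log k0 := by
    intro p hp
    obtain ⟨hp', hpk⟩ := hsub p hp
    have hp0 : (0 : ℝ) < p := by exact_mod_cast hp'.pos
    have hlp : 0 ≤ Real.log p := Real.log_nonneg (by exact_mod_cast hp'.one_lt.le)
    have hlpk : Real.log p ≤ Real.log k0 := Real.log_le_log hp0 (by exact_mod_cast hpk)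
    have h2 : ∑ i ∈ Icc 1 (Nat.log 2 N), (smp_c N (p ^ i) : ℝ) ≤
        C * x / Real.log x * (4 / p) + 2 * Real.log x * x ^ (1 / 2 : ℝ) := by
      calc ∑ i ∈ Icc 1 (Nat.log 2 N), (smp_c N (p ^ i) : ℝ)
          ≤ ∑ i ∈ Icc 1 (Nat.log 2 N), (C * x / Real.log x * (1 / ((p ^ i).totient : ℝ)) +
              x ^ (1 / 2 : ℝ)) := sum_le_sum fun i _ => hc _ (Nat.pow_pos hp'.pos)
        _ = C * x / Real.log x * ∑ i ∈ Icc 1 (Nat.log 2 N), 1 / ((p ^ i).totient : ℝ) +
              (Nat.log 2 N : ℝ) * x ^ (1 / 2 : ℝ) := by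
            rw [sum_add_distrib, ← mul_sum, sum_const, Nat.card_Icc, nsmul_eq_mul]
            simp
        _ ≤ C * x / Real.log x * (4 / p) + 2 * Real.log x * x ^ (1 / 2 : ℝ) := by
            have h3 := smp_geo hp' (Nat.log 2 N)
            have h4 : 0 ≤ 4 / (p : ℝ) ^ (Nat.log 2 N + 1) := by positivity
            have h5 : (0 : ℝ) ≤ C * x / Real.log x := by positivity
            have h6 : (0 : ℝ) ≤ x ^ (1 / 2 : ℝ) := by positivity
            have h7 := mul_le_mul_of_nonneg_left (h3.trans (by linarith : _ ≤ 4 / (p : ℝ))) h5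
            have h8 := mul_le_mul_of_nonneg_right hA h6
            linarith
    have h3 := mul_le_mul_of_nonneg_left h2 hlp
    have h4 : 0 ≤ 2 * Real.log x * x ^ (1 / 2 : ℝ) := by positivity
    have h5 := mul_le_mul_of_nonneg_left hlpk h4
    have h6 : Real.log p * (C * x / Real.log x * (4 / p) + 2 * Real.log x * x ^ (1 / 2 : ℝ)) =
        4 * C * x / Real.log x * (Real.log p / p) +
          2 * Real.log x * x ^ (1 / 2 : ℝ) * Real.log p := by
      ring
    linarith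
  have h11 : ∑ l ∈ (Icc 2 N).filter Nat.Prime, Real.log (smp k0 (l - 1)) ≤
      4 * C * x / Real.log x * (Real.log k0 + Real.log 4) +
        k0 * (2 * Real.log x * x ^ (1 / 2 : ℝ) * Real.log k0) := by
    refine (smp_swap N k0).trans ((sum_le_sum h10).trans ?_)
    rw [sum_add_distrib, ← mul_sum, sum_const, nsmul_eq_mul]
    have h2 := Pool.Agent.H85.Rho.AA_le (n := k0) (by omega)
    unfold Pool.Agent.H85.Rho.AA at h2
    have h3 : ((Pool.Agent.H85.Rho.pr 0 k0).card : ℝ) ≤ k0 := by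
      have h4 : (Pool.Agent.H85.Rho.pr 0 k0).card ≤ (Ioc 0 k0).card := by
        refine card_le_card fun p hp => ?_
        rw [Pool.Agent.H85.Rho.mem_pr] at hp
        rw [mem_Ioc]
        exact hp.1
      rw [Nat.card_Ioc] at h4
      exact_mod_cast h4
    have h5 : (0 : ℝ) ≤ 4 * C * x / Real.log x := by positivity
    have h6 : 0 ≤ 2 * Real.log x * x ^ (1 / 2 : ℝ) * Real.log k0 := by positivity
    exact add_le_add (mul_le_mul_of_nonneg_left h2 h5) (mul_le_mul_of_nonneg_right h3 h6)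
  refine h11.trans ?_
  have h12 : Real.log 4 ≤ 2 * Real.log k0 := by
    rw [show (4 : ℝ) = 2 ^ 2 by norm_num, Real.log_pow]
    have : Real.log 2 ≤ Real.log k0 := Real.log_le_log (by norm_num) (by linarith)
    push_cast
    linarith
  have h13 : (k0 : ℝ) * (2 * Real.log x * x ^ (1 / 2 : ℝ)) ≤ x / Real.log x := by
    have e1 : Real.log x ≤ 8 * x ^ (1 / 8 : ℝ) := by
      have := Real.log_le_rpow_div hx0.le (show (0 : ℝ) < 1 / 8 by norm_num)
      linarith
    have e2 : (128 : ℝ) ≤ x ^ (1 / 5 : ℝ) := by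
      have : (128 : ℝ) = ((2 : ℝ) ^ (35 : ℝ)) ^ (1 / 5 : ℝ) := by
        rw [← Real.rpow_mul (by norm_num)]
        norm_num
      rw [this]
      refine Real.rpow_le_rpow (by positivity) ?_ (by norm_num)
      exact le_trans (by norm_num) hx
    rw [le_div_iff₀ hlx0]
    have e3 : x ^ (1 / 8 : ℝ) * x ^ (1 / 8 : ℝ) = x ^ (1 / 4 : ℝ) := by
      rw [← Real.rpow_add hx0]; norm_num
    have e4 : Real.log x * Real.log x ≤ 64 * x ^ (1 / 4 : ℝ) := by
      calc Real.log x * Real.log x ≤ (8 * x ^ (1 / 8 : ℝ)) * (8 * x ^ (1 / 8 : ℝ)) :=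
            mul_le_mul e1 e1 hlx0.le (by positivity)
        _ = 64 * (x ^ (1 / 8 : ℝ) * x ^ (1 / 8 : ℝ)) := by ring
        _ = _ := by rw [e3]
    have e5 : x ^ (1 / 20 : ℝ) * x ^ (1 / 2 : ℝ) * x ^ (1 / 4 : ℝ) * x ^ (1 / 5 : ℝ) = x := by
      rw [← Real.rpow_add hx0, ← Real.rpow_add hx0, ← Real.rpow_add hx0]
      norm_num
    have p1 : (0 : ℝ) ≤ x ^ (1 / 20 : ℝ) := by positivity
    have p2 : (0 : ℝ) ≤ x ^ (1 / 2 : ℝ) := by positivity
    have p3 : (0 : ℝ) ≤ x ^ (1 / 4 : ℝ) := by positivity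
    calc (k0 : ℝ) * (2 * Real.log x * x ^ (1 / 2 : ℝ)) * Real.log x
        = 2 * (k0 * x ^ (1 / 2 : ℝ)) * (Real.log x * Real.log x) := by ring
      _ ≤ 2 * (x ^ (1 / 20 : ℝ) * x ^ (1 / 2 : ℝ)) * (64 * x ^ (1 / 4 : ℝ)) := by
          gcongr
      _ = x ^ (1 / 20 : ℝ) * x ^ (1 / 2 : ℝ) * x ^ (1 / 4 : ℝ) * 128 := by ring
      _ ≤ x ^ (1 / 20 : ℝ) * x ^ (1 / 2 : ℝ) * x ^ (1 / 4 : ℝ) * x ^ (1 / 5 : ℝ) :=
          mul_le_mul_of_nonneg_left e2 (by positivity)
      _ = x := e5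
  have h14 : 4 * C * x / Real.log x * (Real.log k0 + Real.log 4) ≤
      12 * C * x / Real.log x * Real.log k0 := by
    have : (0 : ℝ) ≤ C * x / Real.log x := by positivity
    calc 4 * C * x / Real.log x * (Real.log k0 + Real.log 4)
        = (C * x / Real.log x) * (4 * (Real.log k0 + Real.log 4)) := by ring
      _ ≤ (C * x / Real.log x) * (12 * Real.log k0) :=
          mul_le_mul_of_nonneg_left (by linarith) this
      _ = _ := by ring
  have h15 := mul_le_mul_of_nonneg_right h13 hlk.le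
  have h16 : (12 * C + 1) * x / Real.log x * Real.log k0 =
      12 * C * x / Real.log x * Real.log k0 + x / Real.log x * Real.log k0 := by
    ring
  rw [h16]
  have h17 : (k0 : ℝ) * (2 * Real.log x * x ^ (1 / 2 : ℝ) * Real.log k0) =
      (k0 : ℝ) * (2 * Real.log x * x ^ (1 / 2 : ℝ)) * Real.log k0 := by ring
  rw [h17]
  linarith

end Pool.FEW
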